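import Mathlib

/-!
# The second numerical index of an `ℓ₂`-sum
-/

namespace Pool.Agent.Results.MP_01d095_an.SecondIndexSum

universe u v

section Defs

variable (X : Type u) [NormedAddCommGroup X] [NormedSpace ℝ X]

/-- `Π(X)`: pairs `(x, f)` of norm-one vectors and norm-one functionals with `f x = 1`. -/
def IsState (x : X) (f : X →L[ℝ] ℝ) : Prop := ‖x‖ = 1 ∧ ‖f‖ = 1 ∧ f x = 1

variable {X}

/-- the numerical radius `v(T) = sup {|f (T x)| : (x, f) ∈ Π(X)}` -/
noncomputable def numRadius (T : X →L[ℝ] X) : ℝ :=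
  sSup {r : ℝ | ∃ (x : X) (f : X →L[ℝ] ℝ), IsState X x f ∧ r = |f (T x)|}

/-- the quotient norm `‖T + Z(X)‖ = inf {‖T - S‖ : v(S) = 0}` -/
noncomputable def quotNorm (T : X →L[ℝ] X) : ℝ :=
  sInf {r : ℝ | ∃ S : X →L[ℝ] X, numRadius S = 0 ∧ r = ‖T - S‖}

variable (X)

/-- the admissible constants: `k ≥ 0` with `k ‖T + Z(X)‖ ≤ v(T)` for every operator `T` -/
def admissible : Set ℝ :=
  {k : ℝ | 0 ≤ k ∧ ∀ T : X →L[ℝ] X, k * quotNorm T ≤ numRadius T}

/-- the second numerical index `n'(X)`, the largest admissible constant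
(`isGreatest_secondIndex`) -/
noncomputable def secondIndex : ℝ := sSup (admissible X)

end Defs

section Basic

variable {X : Type u} [NormedAddCommGroup X] [NormedSpace ℝ X]

lemma abs_le_norm (T : X →L[ℝ] X) {x : X} {f : X →L[ℝ] ℝ} (h : IsState X x f) :
    |f (T x)| ≤ ‖T‖ := by
  have h1 := f.le_opNorm (T x)
  have h2 := T.le_opNorm x
  rw [h.2.1, one_mul, Real.norm_eq_abs] at h1
  rw [h.1, mul_one] at h2
  exact h1.trans h2

lemma bddAbove_nr (T : X →L[ℝ] X) :
    BddAbove {r : ℝ | ∃ (x : X) (f : X →L[ℝ] ℝ), IsState X x f ∧ r = |f (T x)|} := by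
  refine ⟨‖T‖, ?_⟩
  rintro r ⟨x, f, h, rfl⟩
  exact abs_le_norm T h

lemma le_numRadius (T : X →L[ℝ] X) {x : X} {f : X →L[ℝ] ℝ} (h : IsState X x f) :
    |f (T x)| ≤ numRadius T :=
  le_csSup (bddAbove_nr T) ⟨x, f, h, rfl⟩

lemma numRadius_nonneg (T : X →L[ℝ] X) : 0 ≤ numRadius T := by
  apply Real.sSup_nonneg
  rintro r ⟨x, f, _, rfl⟩
  exact abs_nonneg _

lemma numRadius_le (T : X →L[ℝ] X) (c : ℝ) (hc : 0 ≤ c)
    (h : ∀ (x : X) (f : X →L[ℝ] ℝ), IsState X x f → |f (T x)| ≤ c) : numRadius T ≤ c := by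
  apply Real.sSup_le _ hc
  rintro r ⟨x, f, hx, rfl⟩
  exact h x f hx

lemma numRadius_zero : numRadius (0 : X →L[ℝ] X) = 0 := by
  apply le_antisymm _ (numRadius_nonneg _)
  apply numRadius_le _ _ le_rfl
  intro x f _
  simp

lemma quotNorm_nonneg (T : X →L[ℝ] X) : 0 ≤ quotNorm T := by
  apply Real.sInf_nonneg
  rintro r ⟨S, _, rfl⟩
  exact norm_nonneg _

lemma quotNorm_nonempty (T : X →L[ℝ] X) :
    {r : ℝ | ∃ S : X →L[ℝ] X, numRadius S = 0 ∧ r = ‖T - S‖}.Nonempty :=
  ⟨_, 0, numRadius_zero, rfl⟩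

lemma quotNorm_le (T S : X →L[ℝ] X) (hS : numRadius S = 0) : quotNorm T ≤ ‖T - S‖ := by
  refine csInf_le (⟨0, ?_⟩ : BddBelow _) ⟨S, hS, rfl⟩
  rintro r ⟨S, _, rfl⟩
  exact norm_nonneg _

lemma le_quotNorm (T : X →L[ℝ] X) (c : ℝ)
    (h : ∀ S : X →L[ℝ] X, numRadius S = 0 → c ≤ ‖T - S‖) : c ≤ quotNorm T := by
  apply le_csInf (quotNorm_nonempty T)
  rintro r ⟨S, hS, rfl⟩
  exact h S hS

lemma exists_isState [Nontrivial X] : ∃ (x : X) (f : X →L[ℝ] ℝ), IsState X x f := by
  obtain ⟨x, hx⟩ := exists_norm_eq X (zero_le_one (α := ℝ))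
  have hx0 : x ≠ 0 := by
    intro h
    rw [h, norm_zero] at hx
    exact zero_ne_one hx
  obtain ⟨f, hf1, hf2⟩ := exists_dual_vector ℝ x (norm_ne_zero_iff.2 hx0)
  refine ⟨x, f, hx, hf1, ?_⟩
  rw [hf2, hx]
  simp

lemma one_le_quotNorm_one [Nontrivial X] : 1 ≤ quotNorm (1 : X →L[ℝ] X) := by
  apply le_quotNorm
  intro S hS
  obtain ⟨x, f, h⟩ := exists_isState (X := X)
  have h1 := abs_le_norm ((1 : X →L[ℝ] X) - S) h
  have h2 : |f (S x)| ≤ 0 := by
    rw [← hS]; exact le_numRadius S h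
  have h3 : f (S x) = 0 := abs_nonpos_iff.1 h2
  have h4 : f (((1 : X →L[ℝ] X) - S) x) = 1 := by
    rw [sub_apply, map_sub, h3, one_apply_eq_self, h.2.2, sub_zero]
  rw [h4, abs_one] at h1
  exact h1

lemma numRadius_one_le : numRadius (1 : X →L[ℝ] X) ≤ 1 := by
  apply numRadius_le _ _ zero_le_one
  intro x f h
  rw [one_apply_eq_self, h.2.2, abs_one]

lemma admissible_le_one [Nontrivial X] {k : ℝ} (hk : k ∈ admissible X) : k ≤ 1 := by
  have h1 := hk.2 1
  have h2 := one_le_quotNorm_one (X := X)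
  have h3 := numRadius_one_le (X := X)
  nlinarith [hk.1]

/-- The supremum defining `n'(X)` is a maximum, and `0 ≤ n'(X) ≤ 1`. -/
theorem isGreatest_secondIndex [Nontrivial X] : IsGreatest (admissible X) (secondIndex X) := by
  have hne : (admissible X).Nonempty :=
    ⟨0, le_rfl, fun T => by rw [zero_mul]; exact numRadius_nonneg T⟩
  have hbdd : BddAbove (admissible X) := ⟨1, fun k hk => admissible_le_one hk⟩
  refine ⟨⟨Real.sSup_nonneg fun k hk => hk.1, fun T => ?_⟩, fun k hk => le_csSup hbdd hk⟩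
  rcases (quotNorm_nonneg T).lt_or_eq with h | h
  · rw [← le_div_iff₀ h]
    apply csSup_le hne
    intro k hk
    rw [le_div_iff₀ h]
    exact hk.2 T
  · rw [← h, mul_zero]
    exact numRadius_nonneg T

lemma secondIndex_le_one [Nontrivial X] : secondIndex X ≤ 1 :=
  admissible_le_one isGreatest_secondIndex.1

end Basic

/-- `Y` is an absolute summand of `X` via the embedding `I` and the projection `P`:
`P I = id`, `I` is isometric, and the norm of `I y + z` (`P z = 0`) is a nondecreasing function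
of `‖y‖` for fixed `z`. Every summand of an absolute sum is of this kind. -/
structure IsAbsoluteSummand {X : Type u} {Y : Type v} [NormedAddCommGroup X] [NormedSpace ℝ X]
    [NormedAddCommGroup Y] [NormedSpace ℝ Y] (I : Y →L[ℝ] X) (P : X →L[ℝ] Y) : Prop where
  proj : ∀ y, P (I y) = y
  isom : ∀ y, ‖I y‖ = ‖y‖
  mono : ∀ (y y' : Y) (z : X), P z = 0 → ‖y'‖ ≤ ‖y‖ → ‖I y' + z‖ ≤ ‖I y + z‖

section Main

variable {X : Type u} {Y : Type v} [NormedAddCommGroup X] [NormedSpace ℝ X]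
  [NormedAddCommGroup Y] [NormedSpace ℝ Y] {I : Y →L[ℝ] X} {P : X →L[ℝ] Y}

lemma IsAbsoluteSummand.norm_proj_le (h : IsAbsoluteSummand I P) (x : X) : ‖P x‖ ≤ ‖x‖ := by
  set y := P x with hy
  set z := x - I y with hz
  have hPz : P z = 0 := by rw [hz, map_sub, h.proj, hy, sub_self]
  have h1 : ‖I (-y) + z‖ ≤ ‖I y + z‖ := h.mono y (-y) z hPz (by rw [norm_neg])
  have h2 : I y + z = x := by rw [hz]; abel
  have h3 : (2 : ℝ) • I y = (I y + z) - (I (-y) + z) := by
    rw [map_neg, two_smul]; abel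
  have h4 : 2 * ‖y‖ ≤ ‖I y + z‖ + ‖I (-y) + z‖ := by
    calc 2 * ‖y‖ = ‖(2 : ℝ) • I y‖ := by rw [norm_smul, h.isom]; norm_num
      _ = ‖(I y + z) - (I (-y) + z)‖ := by rw [h3]
      _ ≤ _ := norm_sub_le _ _
  rw [h2] at h1 h4
  linarith

lemma norm_fun_le (f : Y →L[ℝ] ℝ) (c r : ℝ) (hr : 0 < r) (hc : 0 ≤ c)
    (h : ∀ y, ‖y‖ ≤ r → f y ≤ c) : ‖f‖ * r ≤ c := by
  rw [← le_div_iff₀ hr]
  apply ContinuousLinearMap.opNorm_le_bound _ (by positivity)
  intro y
  rcases eq_or_ne y 0 with rfl | hy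
  · simp
  have hy' : 0 < ‖y‖ := norm_pos_iff.2 hy
  have key : ∀ w : Y, ‖w‖ = ‖y‖ → f w ≤ c / r * ‖y‖ := by
    intro w hw
    have h1 := h ((r / ‖y‖) • w) (by
      rw [norm_smul, Real.norm_eq_abs, abs_of_pos (by positivity), hw]
      field_simp
      exact le_rfl)
    rw [map_smul, smul_eq_mul, div_mul_eq_mul_div, div_le_iff₀ hy'] at h1
    rw [div_mul_eq_mul_div, le_div_iff₀ hr]
    linarith
  rw [Real.norm_eq_abs, abs_le]
  constructor
  · have := key (-y) (norm_neg y)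
    rw [map_neg] at this
    linarith
  · exact key y rfl

/-- For `(x, g) ∈ Π(X)`, the restriction of `g` to `Y` attains its norm at `P x`. -/
lemma IsAbsoluteSummand.attains (h : IsAbsoluteSummand I P) {x : X} {g : X →L[ℝ] ℝ}
    (hg : IsState X x g) : ‖g.comp I‖ * ‖P x‖ ≤ g (I (P x)) := by
  set y := P x with hy
  set z := x - I y with hz
  have hPz : P z = 0 := by rw [hz, map_sub, h.proj, hy, sub_self]
  have h2 : I y + z = x := by rw [hz]; abel
  have h3 : ∀ y', ‖y'‖ ≤ ‖y‖ → g (I y') ≤ g (I y) := by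
    intro y' hy'
    have h4 : ‖I y' + z‖ ≤ 1 := by
      have := h.mono y y' z hPz hy'
      rwa [h2, hg.1] at this
    have h5 : g (I y' + z) ≤ 1 := by
      have h6 := g.le_opNorm (I y' + z)
      rw [hg.2.1, one_mul] at h6
      exact (le_abs_self _).trans (h6.trans h4)
    have h7 : g (I y + z) = 1 := by rw [h2]; exact hg.2.2
    rw [map_add] at h5 h7
    linarith
  rcases (norm_nonneg y).lt_or_eq with hy0 | hy0
  · apply norm_fun_le (g.comp I) (g (I y)) ‖y‖ hy0
    · have := h3 0 (by simp)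
      simpa using this
    · intro y' hy'
      exact h3 y' hy'
  · rw [← hy0, mul_zero]
    have := h3 0 (by simp)
    simpa using this

lemma isState_embed (h : IsAbsoluteSummand I P) {y : Y} {f : Y →L[ℝ] ℝ} (hf : IsState Y y f) :
    IsState X (I y) (f.comp P) := by
  have h1 : (f.comp P) (I y) = 1 := by
    rw [ContinuousLinearMap.comp_apply, h.proj]; exact hf.2.2
  have h2 : ‖I y‖ = 1 := by rw [h.isom]; exact hf.1
  refine ⟨h2, le_antisymm ?_ ?_, h1⟩
  · apply ContinuousLinearMap.opNorm_le_bound _ zero_le_one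
    intro x
    calc ‖(f.comp P) x‖ ≤ ‖f‖ * ‖P x‖ := f.le_opNorm (P x)
      _ ≤ 1 * ‖x‖ := by
        rw [hf.2.1]
        exact mul_le_mul_of_nonneg_left (h.norm_proj_le x) zero_le_one
  · have := (f.comp P).le_opNorm (I y)
    rw [h1, h2, mul_one, norm_one] at this
    exact this

lemma numRadius_compress_eq_zero (h : IsAbsoluteSummand I P) (S : X →L[ℝ] X)
    (hS : numRadius S = 0) : numRadius (P.comp (S.comp I)) = 0 := by
  apply le_antisymm _ (numRadius_nonneg _)
  apply numRadius_le _ _ le_rfl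
  intro y f hf
  have h1 := le_numRadius S (isState_embed h hf)
  rw [hS] at h1
  exact h1

lemma numRadius_extend_le (h : IsAbsoluteSummand I P) (T : Y →L[ℝ] Y) :
    numRadius (I.comp (T.comp P)) ≤ numRadius T := by
  apply numRadius_le _ _ (numRadius_nonneg _)
  intro x g hg
  set gY := g.comp I with hgY
  set y := P x with hy
  have hval : g ((I.comp (T.comp P)) x) = gY (T y) := rfl
  rw [hval]
  have hatt := h.attains hg
  rw [← hgY, ← hy] at hatt
  have hy1 : ‖y‖ ≤ 1 := by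
    have := h.norm_proj_le x
    rw [hg.1] at this
    exact this
  have hg1 : ‖gY‖ ≤ 1 := by
    apply ContinuousLinearMap.opNorm_le_bound _ zero_le_one
    intro w
    have := g.le_opNorm (I w)
    rw [hg.2.1, h.isom] at this
    exact this
  rcases (norm_nonneg y).lt_or_eq with hy0 | hy0
  · rcases (norm_nonneg gY).lt_or_eq with hg0 | hg0
    · -- normalise
      have hst : IsState Y (‖y‖⁻¹ • y) (‖gY‖⁻¹ • gY) := by
        refine ⟨?_, ?_, ?_⟩
        · rw [norm_smul, norm_inv, norm_norm, inv_mul_cancel₀ hy0.ne']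
        · rw [norm_smul, norm_inv, norm_norm, inv_mul_cancel₀ hg0.ne']
        · have h1 : gY y = ‖gY‖ * ‖y‖ := by
            apply le_antisymm _ hatt
            exact (le_abs_self _).trans (gY.le_opNorm y)
          rw [smul_apply, map_smul, h1, smul_eq_mul, smul_eq_mul]
          field_simp
      have h2 := le_numRadius T hst
      rw [smul_apply, map_smul, map_smul, smul_eq_mul, smul_eq_mul, abs_mul,
        abs_mul, abs_of_pos (inv_pos.2 hg0), abs_of_pos (inv_pos.2 hy0)] at h2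
      have h3 : |gY (T y)| = ‖gY‖ * ‖y‖ * (‖gY‖⁻¹ * (‖y‖⁻¹ * |gY (T y)|)) := by
        field_simp
      rw [h3]
      have h4 : ‖gY‖ * ‖y‖ ≤ 1 := by nlinarith
      have h5 : 0 ≤ ‖gY‖⁻¹ * (‖y‖⁻¹ * |gY (T y)|) := by positivity
      calc ‖gY‖ * ‖y‖ * (‖gY‖⁻¹ * (‖y‖⁻¹ * |gY (T y)|))
          ≤ 1 * (‖gY‖⁻¹ * (‖y‖⁻¹ * |gY (T y)|)) := mul_le_mul_of_nonneg_right h4 h5
        _ ≤ numRadius T := by rw [one_mul]; exact h2
    · have h1 : gY = 0 := norm_eq_zero.1 hg0.symm
      rw [h1]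
      simpa using numRadius_nonneg T
  · have h1 : y = 0 := norm_eq_zero.1 hy0.symm
    rw [h1]
    simpa using numRadius_nonneg T

lemma quotNorm_extend_ge (h : IsAbsoluteSummand I P) (T : Y →L[ℝ] Y) :
    quotNorm T ≤ quotNorm (I.comp (T.comp P)) := by
  apply le_quotNorm
  intro S hS
  refine (quotNorm_le T _ (numRadius_compress_eq_zero h S hS)).trans ?_
  apply ContinuousLinearMap.opNorm_le_bound _ (norm_nonneg _)
  intro y
  have h1 : (T - P.comp (S.comp I)) y = P ((I.comp (T.comp P) - S) (I y)) := by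
    simp only [sub_apply, ContinuousLinearMap.comp_apply, map_sub, h.proj]
  rw [h1]
  calc ‖P ((I.comp (T.comp P) - S) (I y))‖ ≤ ‖(I.comp (T.comp P) - S) (I y)‖ :=
        h.norm_proj_le _
    _ ≤ ‖I.comp (T.comp P) - S‖ * ‖I y‖ := ContinuousLinearMap.le_opNorm _ _
    _ = ‖I.comp (T.comp P) - S‖ * ‖y‖ := by rw [h.isom]

/-- The second numerical index does not exceed that of an absolute summand. -/
theorem secondIndex_le_of_absoluteSummand [Nontrivial X] [Nontrivial Y]
    (h : IsAbsoluteSummand I P) : secondIndex X ≤ secondIndex Y := by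
  apply isGreatest_secondIndex.2
  have hX := isGreatest_secondIndex (X := X)
  refine ⟨hX.1.1, fun T => ?_⟩
  calc secondIndex X * quotNorm T ≤ secondIndex X * quotNorm (I.comp (T.comp P)) :=
        mul_le_mul_of_nonneg_left (quotNorm_extend_ge h T) hX.1.1
    _ ≤ numRadius (I.comp (T.comp P)) := hX.1.2 _
    _ ≤ numRadius T := numRadius_extend_le h T

end Main

section L2

variable {Y : Type u} {W : Type v} [NormedAddCommGroup Y] [NormedSpace ℝ Y]
  [NormedAddCommGroup W] [NormedSpace ℝ W]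

omit [NormedSpace ℝ Y] [NormedSpace ℝ W] in
lemma norm_L2 (x : WithLp 2 (Y × W)) : ‖x‖ ^ 2 = ‖x.fst‖ ^ 2 + ‖x.snd‖ ^ 2 := by
  rw [WithLp.prod_norm_eq_of_L2, Real.sq_sqrt (by positivity)]

lemma summand_left : IsAbsoluteSummand
    ((WithLp.prodContinuousLinearEquiv 2 ℝ Y W).symm.toContinuousLinearMap.comp
      (ContinuousLinearMap.inl ℝ Y W))
    ((ContinuousLinearMap.fst ℝ Y W).comp
      (WithLp.prodContinuousLinearEquiv 2 ℝ Y W).toContinuousLinearMap) := by
  refine ⟨fun y => rfl, fun y => ?_, fun y y' z hz hy => ?_⟩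
  · apply (pow_left_inj₀ (norm_nonneg _) (norm_nonneg _) (two_ne_zero)).1
    rw [norm_L2]
    simp
  · apply (pow_le_pow_iff_left₀ (norm_nonneg _) (norm_nonneg _) (two_ne_zero)).1
    rw [norm_L2, norm_L2]
    have hz' : z.fst = 0 := hz
    simp [hz']
    exact pow_le_pow_left₀ (norm_nonneg _) hy 2

lemma summand_right : IsAbsoluteSummand
    ((WithLp.prodContinuousLinearEquiv 2 ℝ Y W).symm.toContinuousLinearMap.comp
      (ContinuousLinearMap.inr ℝ Y W))
    ((ContinuousLinearMap.snd ℝ Y W).comp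
      (WithLp.prodContinuousLinearEquiv 2 ℝ Y W).toContinuousLinearMap) := by
  refine ⟨fun y => rfl, fun y => ?_, fun y y' z hz hy => ?_⟩
  · apply (pow_left_inj₀ (norm_nonneg _) (norm_nonneg _) (two_ne_zero)).1
    rw [norm_L2]
    simp
  · apply (pow_le_pow_iff_left₀ (norm_nonneg _) (norm_nonneg _) (two_ne_zero)).1
    rw [norm_L2, norm_L2]
    have hz' : z.snd = 0 := hz
    simp [hz']
    exact pow_le_pow_left₀ (norm_nonneg _) hy 2

end L2

/-- **Positive answer to Q1**: `n'(Y ⊕₂ W) ≤ min (n'(Y), n'(W))` for all nonzero real Banach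
spaces. More generally the second numerical index of a real Banach space is at most that of each
of its absolute summands. -/
theorem result :
    (∀ (Y : Type u) (W : Type v) [NormedAddCommGroup Y] [NormedSpace ℝ Y] [CompleteSpace Y]
      [NormedAddCommGroup W] [NormedSpace ℝ W] [CompleteSpace W] [Nontrivial Y] [Nontrivial W],
      IsGreatest (admissible (WithLp 2 (Y × W))) (secondIndex (WithLp 2 (Y × W))) ∧
      IsGreatest (admissible Y) (secondIndex Y) ∧ IsGreatest (admissible W) (secondIndex W) ∧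
      secondIndex (WithLp 2 (Y × W)) ≤ min (secondIndex Y) (secondIndex W)) ∧
    (∀ (X : Type u) (Y : Type v) [NormedAddCommGroup X] [NormedSpace ℝ X]
      [NormedAddCommGroup Y] [NormedSpace ℝ Y] [Nontrivial Y] (I : Y →L[ℝ] X) (P : X →L[ℝ] Y),
      IsAbsoluteSummand I P → secondIndex X ≤ secondIndex Y) := by
  refine ⟨?_, ?_⟩
  · intro Y W _ _ _ _ _ _ _ _
    have : Nontrivial (WithLp 2 (Y × W)) := by
      obtain ⟨y, hy⟩ := exists_ne (0 : Y)
      refine ⟨⟨WithLp.toLp 2 (y, 0), 0, ?_⟩⟩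
      intro h
      apply hy
      have := congrArg WithLp.fst h
      simpa using this
    refine ⟨isGreatest_secondIndex, isGreatest_secondIndex, isGreatest_secondIndex, ?_⟩
    exact le_min (secondIndex_le_of_absoluteSummand summand_left)
      (secondIndex_le_of_absoluteSummand summand_right)
  · intro X Y _ _ _ _ _ I P h
    have : Nontrivial X := by
      obtain ⟨y, hy⟩ := exists_ne (0 : Y)
      refine ⟨⟨I y, 0, ?_⟩⟩
      intro h0
      apply hy
      rw [← norm_eq_zero, ← h.isom, h0, norm_zero]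
    exact secondIndex_le_of_absoluteSummand h

end Pool.Agent.Results.MP_01d095_an.SecondIndexSum
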